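import Pool.Agent.TH231.PP.Nd

set_option autoImplicit false

/-! The final theorems: products of powers, generic coefficients. -/

namespace Pool.Agent.TH231.PP

open MvPolynomial Pool.Agent.W425.SM
open Pool.Agent.H628R4.TP (IsBFunction IsLocalBFunction)
open Pool.Agent.W423.MG
open Pool.Agent.W423.NX

variable {r N P : ℕ}

/-- the orders of the poles which are not exceptional -/
theorem order_of (m : Fin (P+1) → ℕ) (Z : RatFunc ℂ) (b : Polynomial ℂ) (n : ℕ)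
    (Q : Polynomial ℂ) (hQ : algebraMap (Polynomial ℂ) (RatFunc ℂ) (b * Dx m n) * Z =
      algebraMap (Polynomial ℂ) (RatFunc ℂ) Q) (s : ℂ)
    (hs : ∀ (k : Fin (P+1)) (i : ℕ), (m k : ℂ) * s + (i : ℂ) ≠ 0) :
    (Polynomial.X - Polynomial.C s) ^ Z.denom.rootMultiplicity s ∣ b := by
  have h1 := (Pool.Agent.W425.GN.dvd_iff _ _).1 ⟨Q, hQ⟩
  have h2 := (Polynomial.pow_rootMultiplicity_dvd Z.denom s).trans h1
  refine IsCoprime.dvd_of_dvd_mul_right (IsCoprime.pow_left ?_) h2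
  refine (Polynomial.irreducible_X_sub_C s).coprime_iff_not_dvd.2 ?_
  rw [Polynomial.dvd_iff_isRoot]
  intro h3
  unfold Dx at h3
  rw [Polynomial.IsRoot, Polynomial.eval_pow] at h3
  have h4 := (pow_eq_zero_iff (by norm_num : (3:ℕ) ≠ 0)).1 h3
  rw [Polynomial.eval_prod, Finset.prod_eq_zero_iff] at h4
  obtain ⟨k, _, h5⟩ := h4
  rw [Polynomial.eval_prod, Finset.prod_eq_zero_iff] at h5
  obtain ⟨i, _, h6⟩ := h5
  simp only [Polynomial.eval_add, Polynomial.eval_mul, Polynomial.eval_C,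
    Polynomial.eval_X] at h6
  exact hs k i h6

/-- The conclusions for a function `b` and a rational function `Z`. -/
def Concl (m : Fin (P+1) → ℕ) (b : Polynomial ℂ) (Z : RatFunc ℂ) (own : Prop) : Prop :=
  (∃ (n : ℕ) (Q : Polynomial ℂ), algebraMap (Polynomial ℂ) (RatFunc ℂ) (b *
      (∏ k : Fin (P+1), ∏ i ∈ Finset.range n,
        (Polynomial.C ((m k : ℕ) : ℂ) * Polynomial.X + Polynomial.C (i : ℂ))) ^ 3) * Z =
      algebraMap (Polynomial ℂ) (RatFunc ℂ) Q) ∧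
  (∀ s : ℂ, (∀ (k : Fin (P+1)) (i : ℕ), (m k : ℂ) * s + (i : ℂ) ≠ 0) →
    (Polynomial.X - Polynomial.C s) ^ Z.denom.rootMultiplicity s ∣ b) ∧
  (own → ∀ s : ℂ, -1 ≤ s.re → Z.denom.eval s = 0 → b.eval s = 0)

theorem finG {F : Type} [Field F] [Algebra F ℂ] (g : Fin r → Fin (P+1))
    (v : Fin r → Fin N → ℕ) (h : Fin (P+1) → MvPolynomial (Fin N) F) (m : Fin (P+1) → ℕ)
    (hm : ∀ k, 1 ≤ m k) (hg : ∀ k, ∃ j, g j = k)
    (hh : ∀ k, ∀ w ∈ (h k).support, HullG False g v k w) :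
    ∃ G : MvPolynomial (Fin r) F, G ≠ 0 ∧ ∀ a : Fin r → ℂ, aeval a G ≠ 0 →
      NonDT g v h a ∧
      ∀ b : Polynomial ℂ, IsBFunction (∏ k, polyH g v a h k ^ m k) b →
      ∀ θ : Fin r → ℝ, LinearIndependent ℚ θ → ∀ R : SmoothFan N, PrincipalG g v R →
        Concl m b (topZetaP False g v θ m R)
          (∀ k, TwoV False g v k ∨ OwnAt False (polyH g v a h) k) := by
  obtain ⟨G1, hG1, h1⟩ := genProd g v h m hm hg hh
  obtain ⟨G2, hG2, h2⟩ := gen_nonDT False g v h hg hh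
  refine ⟨G1 * G2, mul_ne_zero hG1 hG2, fun a ha => ?_⟩
  rw [map_mul] at ha
  refine ⟨h2 a (right_ne_zero_of_mul ha), fun b hb θ hθ R hR => ?_⟩
  obtain ⟨_, h3⟩ := h1 a (left_ne_zero_of_mul ha)
  obtain ⟨⟨n, Q, hQ⟩, h4⟩ := h3 b hb θ hθ R hR
  exact ⟨⟨n, Q, hQ⟩, fun s hs => order_of m _ b n Q hQ s hs, h4⟩

theorem finL {F : Type} [Field F] [Algebra F ℂ] (g : Fin r → Fin (P+1))
    (v : Fin r → Fin N → ℕ) (h : Fin (P+1) → MvPolynomial (Fin N) F) (m : Fin (P+1) → ℕ)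
    (hm : ∀ k, 1 ≤ m k) (hg : ∀ k, ∃ j, g j = k)
    (hh : ∀ k, ∀ w ∈ (h k).support, HullG True g v k w) :
    ∃ G : MvPolynomial (Fin r) F, G ≠ 0 ∧ ∀ a : Fin r → ℂ, aeval a G ≠ 0 →
      NonDT g v h a ∧
      (constantCoeff (∏ k, polyH g v a h k ^ m k) = 0 →
      ∀ b : Polynomial ℂ, IsLocalBFunction (∏ k, polyH g v a h k ^ m k) b →
      ∀ θ : Fin r → ℝ, LinearIndependent ℚ θ → ∀ R : SmoothFan N, PrincipalG g v R →
        Concl m b (topZetaP True g v θ m R)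
          (∀ k, TwoV True g v k ∨ OwnAt True (polyH g v a h) k)) := by
  obtain ⟨G1, hG1, h1⟩ := genProdL g v h m hm hg hh
  obtain ⟨G2, hG2, h2⟩ := gen_nonDT True g v h hg hh
  refine ⟨G1 * G2, mul_ne_zero hG1 hG2, fun a ha => ?_⟩
  rw [map_mul] at ha
  refine ⟨h2 a (right_ne_zero_of_mul ha), fun hc b hb θ hθ R hR => ?_⟩
  obtain ⟨_, h3⟩ := h1 a (left_ne_zero_of_mul ha)
  obtain ⟨⟨n, Q, hQ⟩, h4⟩ := h3 hc b hb θ hθ R hR
  exact ⟨⟨n, Q, hQ⟩, fun s hs => order_of m _ b n Q hQ s hs, h4⟩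

end Pool.Agent.TH231.PP
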