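import Pool.Agent.W425.GN.Top

set_option autoImplicit false

/-! Transfer of a divisibility statement with exceptional factors `m_k s + i`. -/

namespace Pool.Agent.TH231.PP

open Polynomial
open Pool.Agent.W425.GN (RR dvd_iff dvd_of_mult)

variable {P : ℕ}

/-- the exceptional factor `∏_k ∏_{i < n} (m_k s + i) ^ 3` -/
noncomputable def Dx (m : Fin (P+1) → ℕ) (n : ℕ) : ℂ[X] :=
  (∏ k : Fin (P+1), ∏ i ∈ Finset.range n, (C ((m k : ℕ) : ℂ) * X + C (i : ℂ))) ^ 3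

lemma lin_ne (m : Fin (P+1) → ℕ) (hm : ∀ k, 1 ≤ m k) (k : Fin (P+1)) (i : ℕ) :
    (C ((m k : ℕ) : ℂ) * X + C (i : ℂ)) ≠ 0 := by
  intro h0
  have h1 := congrArg (fun p : ℂ[X] => p.coeff 1) h0
  simp only [coeff_add, coeff_C_mul, coeff_X_one, coeff_C_succ, coeff_zero, add_zero,
    mul_one] at h1
  have := hm k
  exact absurd h1 (by exact_mod_cast (by omega : m k ≠ 0))

lemma Dx_ne (m : Fin (P+1) → ℕ) (hm : ∀ k, 1 ≤ m k) (n : ℕ) : Dx m n ≠ 0 := by
  unfold Dx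
  refine pow_ne_zero _ ?_
  rw [Finset.prod_ne_zero_iff]
  intro k _
  rw [Finset.prod_ne_zero_iff]
  intro i _
  exact lin_ne m hm k i

/-- the later factors do not vanish at `z` -/
lemma Dx_split (m : Fin (P+1) → ℕ) (n n' : ℕ) (z : ℂ) (hz : ∀ k, (m k : ℝ) * ‖z‖ < n)
    (hn : n ≤ n') : ∃ E : ℂ[X], Dx m n' = Dx m n * E ∧ E.eval z ≠ 0 := by
  refine ⟨(∏ k : Fin (P+1), ∏ i ∈ Finset.Ico n n', (C ((m k : ℕ) : ℂ) * X + C (i : ℂ))) ^ 3,
    ?_, ?_⟩
  · unfold Dx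
    rw [← mul_pow, ← Finset.prod_mul_distrib]
    congr 1
    refine Finset.prod_congr rfl fun k _ => ?_
    rw [Finset.prod_range_mul_prod_Ico _ hn]
  · rw [eval_pow]
    refine pow_ne_zero _ ?_
    rw [eval_prod, Finset.prod_ne_zero_iff]
    intro k _
    rw [eval_prod, Finset.prod_ne_zero_iff]
    intro i hi h0
    rw [Finset.mem_Ico] at hi
    simp only [eval_add, eval_mul, eval_C, eval_X] at h0
    have h1 : (m k : ℂ) * z = -(i : ℂ) := by linear_combination h0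
    have h2 : (m k : ℝ) * ‖z‖ = i := by
      have := congrArg norm h1
      rw [norm_mul, norm_neg] at this
      simpa using this
    have h3 := hz k
    rw [h2] at h3
    have h4 : (i : ℕ) < n := by exact_mod_cast h3
    omega

lemma Dx_dvd (m : Fin (P+1) → ℕ) {n n' : ℕ} (hn : n ≤ n') : Dx m n ∣ Dx m n' := by
  unfold Dx
  refine pow_dvd_pow_of_dvd ?_ 3
  refine Finset.prod_dvd_prod_of_dvd _ _ fun k _ => ?_
  exact Finset.prod_dvd_prod_of_subset _ _ _ (Finset.range_subset_range.2 hn)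

theorem transfer (m : Fin (P+1) → ℕ) (hm : ∀ k, 1 ≤ m k) (Z : RatFunc ℂ) (hZ : RR Z)
    (B : Set ℂ[X]) (hB : ∀ b' ∈ B, ∃ (n : ℕ) (Q : ℂ[X]),
      algebraMap ℂ[X] (RatFunc ℂ) (b' * Dx m n) * Z = algebraMap ℂ[X] (RatFunc ℂ) Q)
    (b : ℂ[X]) (hb : ∀ (α : ℚ) (l : ℕ), (∀ b' ∈ B, (X - C (α : ℂ)) ^ (l + 1) ∣ b') →
      (X - C (α : ℂ)) ^ (l + 1) ∣ b) :
    ∃ (n : ℕ) (Q : ℂ[X]),
      algebraMap ℂ[X] (RatFunc ℂ) (b * Dx m n) * Z = algebraMap ℂ[X] (RatFunc ℂ) Q := by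
  classical
  -- a common bound
  obtain ⟨n, hn⟩ : ∃ n : ℕ, ∀ z ∈ Z.denom.roots.toFinset, ∀ k, (m k : ℝ) * ‖z‖ < n := by
    obtain ⟨n, hn⟩ := exists_nat_gt (∑ z ∈ Z.denom.roots.toFinset, ∑ k, (m k : ℝ) * ‖z‖)
    refine ⟨n, fun z hz k => lt_of_le_of_lt ?_ hn⟩
    refine le_trans (Finset.single_le_sum (f := fun k => (m k : ℝ) * ‖z‖)
      (fun k _ => by positivity) (Finset.mem_univ k)) ?_
    exact Finset.single_le_sum (f := fun z : ℂ => ∑ k, (m k : ℝ) * ‖z‖)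
      (fun z _ => Finset.sum_nonneg fun k _ => by positivity) hz
  refine ⟨n, (dvd_iff Z _).2 (dvd_of_mult (RatFunc.denom_ne_zero Z) fun z hz => ?_)⟩
  have hzr : z ∈ Z.denom.roots.toFinset := by
    rw [Multiset.mem_toFinset, mem_roots (RatFunc.denom_ne_zero Z)]
    exact hz
  obtain ⟨q, rfl⟩ := hZ z hz
  set μ := Z.denom.rootMultiplicity (q : ℂ) with hμ
  set D := Dx m n with hD
  have hD0 : D ≠ 0 := Dx_ne m hm n
  set la := D.rootMultiplicity (q : ℂ) with hla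
  obtain ⟨E', hE', hE'd⟩ := exists_eq_pow_rootMultiplicity_mul_and_not_dvd D hD0 (q : ℂ)
  rw [← hla] at hE'
  by_cases hle : μ ≤ la
  · exact ((pow_dvd_pow _ hle).trans ⟨E', hE'⟩).trans (dvd_mul_left _ _)
  have hcop : ∀ E : ℂ[X], E.eval (q : ℂ) ≠ 0 → IsCoprime ((X - C (q : ℂ)) ^ μ) E := by
    intro E hE
    refine IsCoprime.pow_left ?_
    refine (irreducible_X_sub_C (q : ℂ)).coprime_iff_not_dvd.2 ?_
    rw [dvd_iff_isRoot]
    exact hE
  have hX : ((X - C (q : ℂ)) ^ la : ℂ[X]) ≠ 0 := pow_ne_zero _ (X_sub_C_ne_zero _)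
  have h1 : (X - C (q : ℂ)) ^ (μ - la - 1 + 1) ∣ b := by
    refine hb q _ fun b' hb' => ?_
    obtain ⟨n', Q, hQ⟩ := hB b' hb'
    have h2 := (dvd_iff Z _).1 ⟨Q, hQ⟩
    have h3 : (X - C (q : ℂ)) ^ μ ∣ b' * Dx m n' :=
      (pow_rootMultiplicity_dvd _ _).trans h2
    have h4 : (X - C (q : ℂ)) ^ μ ∣ b' * Dx m (max n n') :=
      h3.trans (mul_dvd_mul_left _ (Dx_dvd m (le_max_right _ _)))
    obtain ⟨E, hE, hE0⟩ := Dx_split m n (max n n') (q : ℂ) (hn _ hzr) (le_max_left _ _)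
    rw [hE, ← hD, hE'] at h4
    have h5 : (X - C (q : ℂ)) ^ μ ∣ (b' * (X - C (q : ℂ)) ^ la) * (E' * E) := by
      refine h4.trans (dvd_of_eq ?_)
      ring
    have hE'0 : E'.eval (q : ℂ) ≠ 0 := by
      intro h6
      exact hE'd (dvd_iff_isRoot.2 h6)
    have h6 : (X - C (q : ℂ)) ^ μ ∣ b' * (X - C (q : ℂ)) ^ la :=
      (hcop (E' * E) (by rw [eval_mul]; exact mul_ne_zero hE'0 hE0)).dvd_of_dvd_mul_right h5
    have h7 : μ = (μ - la - 1 + 1) + la := by omega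
    rw [h7, pow_add] at h6
    exact (mul_dvd_mul_iff_right hX).1 h6
  have h7 : μ = (μ - la - 1 + 1) + la := by omega
  rw [h7, pow_add]
  exact mul_dvd_mul h1 ⟨E', hE'⟩

/-- `0` is not a pole of `Z` -/
def R0 (Z : RatFunc ℂ) : Prop := Z.denom.eval 0 ≠ 0

lemma R0.add {x y : RatFunc ℂ} (hx : R0 x) (hy : R0 y) : R0 (x + y) := by
  intro h
  have h1 : (x + y).denom.IsRoot 0 := h
  have h2 := h1.dvd (RatFunc.denom_add_dvd x y)
  rw [IsRoot, eval_mul, mul_eq_zero] at h2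
  exact h2.elim hx hy

lemma R0.mul {x y : RatFunc ℂ} (hx : R0 x) (hy : R0 y) : R0 (x * y) := by
  intro h
  have h1 : (x * y).denom.IsRoot 0 := h
  have h2 := h1.dvd (RatFunc.denom_mul_dvd x y)
  rw [IsRoot, eval_mul, mul_eq_zero] at h2
  exact h2.elim hx hy

lemma R0.poly (p : ℂ[X]) : R0 (algebraMap ℂ[X] (RatFunc ℂ) p) := by
  intro hz
  rw [RatFunc.denom_algebraMap, eval_one] at hz
  exact absurd hz one_ne_zero

lemma R0.zero : R0 0 := by
  have := R0.poly 0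
  rwa [map_zero] at this

lemma R0.one : R0 1 := by
  have := R0.poly 1
  rwa [map_one] at this

lemma R0.const (c : ℂ) : R0 (RatFunc.C c) := by
  have := R0.poly (C c)
  rwa [RatFunc.algebraMap_C] at this

lemma R0.sum {ι : Type*} (s : Finset ι) (Z : ι → RatFunc ℂ) (h : ∀ i ∈ s, R0 (Z i)) :
    R0 (∑ i ∈ s, Z i) := by
  classical
  induction s using Finset.induction_on with
  | empty => rw [Finset.sum_empty]; exact R0.zero
  | insert i s hi ih =>
    rw [Finset.sum_insert hi]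
    exact (h i (Finset.mem_insert_self _ _)).add (ih fun j hj => h j (Finset.mem_insert_of_mem hj))

lemma R0.prod {ι : Type*} (s : Finset ι) (Z : ι → RatFunc ℂ) (h : ∀ i ∈ s, R0 (Z i)) :
    R0 (∏ i ∈ s, Z i) := by
  classical
  induction s using Finset.induction_on with
  | empty => rw [Finset.prod_empty]; exact R0.one
  | insert i s hi ih =>
    rw [Finset.prod_insert hi]
    exact (h i (Finset.mem_insert_self _ _)).mul (ih fun j hj => h j (Finset.mem_insert_of_mem hj))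

lemma R0.lin (a b : ℕ) (hb : 0 < b) :
    R0 (((a : RatFunc ℂ) * RatFunc.X + (b : RatFunc ℂ))⁻¹) := by
  have e : (a : RatFunc ℂ) * RatFunc.X + (b : RatFunc ℂ) = algebraMap ℂ[X] (RatFunc ℂ)
      (C (a : ℂ) * X + C (b : ℂ)) := by
    simp
  by_cases h0 : (a : RatFunc ℂ) * RatFunc.X + (b : RatFunc ℂ) = 0
  · rw [h0, inv_zero]
    exact R0.zero
  · intro hz
    have h1 : ((a : RatFunc ℂ) * RatFunc.X + (b : RatFunc ℂ))⁻¹.denom.IsRoot 0 := hz
    have h := h1.dvd (RatFunc.denom_inv_dvd h0)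
    rw [e, RatFunc.num_algebraMap, IsRoot] at h
    simp only [eval_add, eval_mul, eval_C, eval_X, mul_zero, zero_add] at h
    exact absurd h (by exact_mod_cast hb.ne')

lemma R0.int (z : ℤ) : R0 ((z : ℤ) : RatFunc ℂ) := by
  have := R0.const (z : ℂ)
  simpa using this

lemma RR_int (z : ℤ) : RR ((z : ℤ) : RatFunc ℂ) := by
  have := RR.const (z : ℂ)
  simpa using this

end Pool.Agent.TH231.PP
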