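import Pool.Agent.W425.GN.Top

set_option autoImplicit false

/-! Roots of Bernstein-Sato polynomials in a family of polynomials `U ∈ F[y][x]`: what holds for all
injective specialisations of `F[y]` in `ℂ` holds on a nonempty Zariski open set of values of `y`. -/

namespace Pool.Agent.TH231.PP

open MvPolynomial Pool.Agent.H628R4.TP
open Pool.Agent.W425.GN

variable {r N : ℕ}

/-- the specialisation `y = a` -/
noncomputable def spec {F : Type} [Field F] [Algebra F ℂ] (a : Fin r → ℂ)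
    (U : MvPolynomial (Fin N) (MvPolynomial (Fin r) F)) : MvPolynomial (Fin N) ℂ :=
  MvPolynomial.map (aeval a : MvPolynomial (Fin r) F →ₐ[F] ℂ).toRingHom U

theorem coreU {F : Type} [Field F] [Algebra F ℂ]
    (U : MvPolynomial (Fin N) (MvPolynomial (Fin r) F)) (hU : U ≠ 0) (α : ℚ) (m : ℕ)
    (H : ∀ φ : MvPolynomial (Fin r) F →+* ℂ, Function.Injective φ → ∀ b : Polynomial ℂ,
      FEq (MvPolynomial.map φ U) b →
        (Polynomial.X - Polynomial.C (α : ℂ)) ^ (m + 1) ∣ b) :
    ∃ g : MvPolynomial (Fin r) F, g ≠ 0 ∧ ∀ a : Fin r → ℂ, aeval a g ≠ 0 → ∀ b : Polynomial ℂ,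
      FEq (spec a U) b → (Polynomial.X - Polynomial.C (α : ℂ)) ^ (m + 1) ∣ b := by
  classical
  have hcF : CharZero F := RingHom.charZero (algebraMap F ℂ)
  obtain ⟨ι0⟩ := emb (F := F) r
  set A := MvPolynomial (Fin r) F with hA
  set K := FractionRing A with hK
  have hchar : CharZero K := RingHom.charZero ι0
  set fK : MvPolynomial (Fin N) K := MvPolynomial.map (algebraMap A K) U with hfK
  obtain ⟨w0, hw0⟩ := MvPolynomial.exists_coeff_ne_zero hU
  have hinjA : Function.Injective (algebraMap A K) := IsFractionRing.injective A K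
  have hfKne : fK ≠ 0 := by
    intro h1
    exact hU (MvPolynomial.map_injective _ hinjA (by rw [← hfK, h1, map_zero]))
  have hnb : ¬ Bad (MvPolynomial.map ι0 fK) (α : ℂ) m := by
    refine Pool.Agent.W376.GN.taskB3 bernstein pA1 pA2 pA3 pA4 pA5 _ ?_ _ m fun b hb => ?_
    · intro h1
      exact hfKne (MvPolynomial.map_injective _ ι0.injective (by rw [h1, map_zero]))
    · refine H (ι0.comp (algebraMap A K)) (by
        rw [RingHom.coe_comp]
        exact ι0.injective.comp hinjA) b ?_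
      rw [← MvPolynomial.map_map]
      exact hb
  have hnbK : ¬ Bad fK (α : K) m := by
    intro h1
    have h2 := h1.map ι0
    rw [map_ratCast] at h2
    exact hnb h2
  obtain ⟨Z, hZ⟩ := Pool.Agent.W486.GN.s2 pSW pG1 pA1 pA2 pA3 pA4 fK (α : K) m hnbK
  obtain ⟨g1, hg1, hg⟩ := pF4 Z
  refine ⟨g1 * coeff w0 U, mul_ne_zero hg1 hw0, fun a ha b hb => ?_⟩
  rw [map_mul] at ha
  obtain ⟨R, _, ι, j, e, hι, hZR, hιj, hej, hun⟩ := hg a (left_ne_zero_of_mul ha)
  -- the residue field
  let κ : Subfield ℂ := { e.range with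
    inv_mem' := by
      rintro x ⟨y, rfl⟩
      by_cases h0 : e y = 0
      · rw [h0, inv_zero]
        exact ⟨0, map_zero e⟩
      · obtain ⟨y', hy'⟩ := (hun y h0).exists_right_inv
        exact ⟨y', by
          have h1 := congrArg e hy'
          rw [map_mul, map_one] at h1
          exact eq_inv_of_mul_eq_one_right h1⟩ }
  let e' : R →+* κ := e.codRestrict κ fun y => ⟨y, rfl⟩
  have he' : Function.Surjective e' := by
    rintro ⟨x, y, hy⟩
    exact ⟨y, Subtype.ext hy⟩
  have hee : (algebraMap κ ℂ).comp e' = e := RingHom.ext fun y => rfl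
  have hfa : MvPolynomial.map (algebraMap κ ℂ) (MvPolynomial.map e'
      (MvPolynomial.map j U)) = spec a U := by
    rw [MvPolynomial.map_map, MvPolynomial.map_map, hee]
    unfold spec
    congr 2
    exact RingHom.ext fun p => hej p
  have hne : spec a U ≠ 0 := by
    intro h1
    have h2 := congrArg (coeff w0) h1
    unfold spec at h2
    rw [coeff_map, coeff_zero] at h2
    exact right_ne_zero_of_mul ha h2
  have hαe : algebraMap κ ℂ (e' (j (C ((α : ℚ) : F)))) = (α : ℂ) := by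
    have h1 : algebraMap κ ℂ (e' (j (C ((α : ℚ) : F)))) = e (j (C ((α : ℚ) : F))) := rfl
    rw [h1, hej]
    have h2 : aeval a (C ((α : ℚ) : F) : MvPolynomial (Fin r) F) =
        algebraMap F ℂ ((α : ℚ) : F) := algHom_C _ _
    rw [h2, map_ratCast]
  have h5 := hZ ι hι hZR (MvPolynomial.map j U) (by
    rw [hfK, MvPolynomial.map_map]
    congr 2
    exact RingHom.ext fun x => hιj x) (j (C ((α : ℚ) : F))) (by
      rw [hιj]
      have h1 : algebraMap A K (C ((α : ℚ) : F)) = algebraMap F K ((α : ℚ) : F) := rfl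
      rw [h1, map_ratCast]) e' he' (by
        intro h1
        apply hne
        rw [← hfa, h1, map_zero])
  have h6 : ¬ Bad (spec a U) (α : ℂ) m := by
    intro h7
    rw [← hfa, ← hαe] at h7
    exact h5 ((pR1 pA1 pA3 _ _ m).1 h7)
  exact Pool.Agent.W311.GN.b2 pA1 pA3 _ b hb (α : ℂ) m h6

theorem coreUL {F : Type} [Field F] [Algebra F ℂ]
    (U : MvPolynomial (Fin N) (MvPolynomial (Fin r) F)) (hU : U ≠ 0) (α : ℚ) (m : ℕ)
    (H : ∀ φ : MvPolynomial (Fin r) F →+* ℂ, Function.Injective φ → ∀ b : Polynomial ℂ,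
      FEqL (MvPolynomial.map φ U) b →
        (Polynomial.X - Polynomial.C (α : ℂ)) ^ (m + 1) ∣ b) :
    ∃ g : MvPolynomial (Fin r) F, g ≠ 0 ∧ ∀ a : Fin r → ℂ, aeval a g ≠ 0 → ∀ b : Polynomial ℂ,
      FEqL (spec a U) b → (Polynomial.X - Polynomial.C (α : ℂ)) ^ (m + 1) ∣ b := by
  classical
  have hcF : CharZero F := RingHom.charZero (algebraMap F ℂ)
  obtain ⟨ι0⟩ := emb (F := F) r
  set A := MvPolynomial (Fin r) F with hA
  set K := FractionRing A with hK
  have hchar : CharZero K := RingHom.charZero ι0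
  set fK : MvPolynomial (Fin N) K := MvPolynomial.map (algebraMap A K) U with hfK
  obtain ⟨w0, hw0⟩ := MvPolynomial.exists_coeff_ne_zero hU
  have hinjA : Function.Injective (algebraMap A K) := IsFractionRing.injective A K
  have hfKne : fK ≠ 0 := by
    intro h1
    exact hU (MvPolynomial.map_injective _ hinjA (by rw [← hfK, h1, map_zero]))
  have hnb : ¬ BadL (MvPolynomial.map ι0 fK) (α : ℂ) m := by
    refine Pool.Agent.W736.GN.taskB3L bernstein pA6 pA1 pA2 pA3 pA4 pA5 _ ?_ _ m fun b hb => ?_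
    · intro h1
      exact hfKne (MvPolynomial.map_injective _ ι0.injective (by rw [h1, map_zero]))
    · refine H (ι0.comp (algebraMap A K)) (by
        rw [RingHom.coe_comp]
        exact ι0.injective.comp hinjA) b ?_
      rw [← MvPolynomial.map_map]
      exact hb
  have hnbK : ¬ BadL fK (α : K) m := by
    intro h1
    have h2 := h1.map ι0
    rw [map_ratCast] at h2
    exact hnb h2
  obtain ⟨Z, hZ⟩ := Pool.Agent.W701.GN.s2L pSW Pool.Agent.W881.GN.w1 pG2 pA1 pA2 pA3 pA4 fK
    (α : K) m hnbK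
  obtain ⟨g1, hg1, hg⟩ := pF4 Z
  refine ⟨g1 * coeff w0 U, mul_ne_zero hg1 hw0, fun a ha b hb => ?_⟩
  rw [map_mul] at ha
  obtain ⟨R, _, ι, j, e, hι, hZR, hιj, hej, hun⟩ := hg a (left_ne_zero_of_mul ha)
  -- the residue field
  let κ : Subfield ℂ := { e.range with
    inv_mem' := by
      rintro x ⟨y, rfl⟩
      by_cases h0 : e y = 0
      · rw [h0, inv_zero]
        exact ⟨0, map_zero e⟩
      · obtain ⟨y', hy'⟩ := (hun y h0).exists_right_inv
        exact ⟨y', by
          have h1 := congrArg e hy'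
          rw [map_mul, map_one] at h1
          exact eq_inv_of_mul_eq_one_right h1⟩ }
  let e' : R →+* κ := e.codRestrict κ fun y => ⟨y, rfl⟩
  have he' : Function.Surjective e' := by
    rintro ⟨x, y, hy⟩
    exact ⟨y, Subtype.ext hy⟩
  have hee : (algebraMap κ ℂ).comp e' = e := RingHom.ext fun y => rfl
  have hfa : MvPolynomial.map (algebraMap κ ℂ) (MvPolynomial.map e'
      (MvPolynomial.map j U)) = spec a U := by
    rw [MvPolynomial.map_map, MvPolynomial.map_map, hee]
    unfold spec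
    congr 2
    exact RingHom.ext fun p => hej p
  have hne : spec a U ≠ 0 := by
    intro h1
    have h2 := congrArg (coeff w0) h1
    unfold spec at h2
    rw [coeff_map, coeff_zero] at h2
    exact right_ne_zero_of_mul ha h2
  have hαe : algebraMap κ ℂ (e' (j (C ((α : ℚ) : F)))) = (α : ℂ) := by
    have h1 : algebraMap κ ℂ (e' (j (C ((α : ℚ) : F)))) = e (j (C ((α : ℚ) : F))) := rfl
    rw [h1, hej]
    have h2 : aeval a (C ((α : ℚ) : F) : MvPolynomial (Fin r) F) =
        algebraMap F ℂ ((α : ℚ) : F) := algHom_C _ _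
    rw [h2, map_ratCast]
  have h5 := hZ ι hι hZR (MvPolynomial.map j U) (by
    rw [hfK, MvPolynomial.map_map]
    congr 2
    exact RingHom.ext fun x => hιj x) (j (C ((α : ℚ) : F))) (by
      rw [hιj]
      have h1 : algebraMap A K (C ((α : ℚ) : F)) = algebraMap F K ((α : ℚ) : F) := rfl
      rw [h1, map_ratCast]) e' he' (by
        intro h1
        apply hne
        rw [← hfa, h1, map_zero])
  have h6 : ¬ BadL (spec a U) (α : ℂ) m := by
    intro h7
    rw [← hfa, ← hαe] at h7
    exact h5 ((pR1 pA1 pA3 _ _ m).2 h7)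
  exact Pool.Agent.W168.GN.b2l pA1 pA3 _ b hb (α : ℂ) m h6

/-- Every `b`-function is divisible by `(s - α) ^ (m + 1)` for all injective specialisations. -/
def HU {F : Type} [Field F] (U : MvPolynomial (Fin N) (MvPolynomial (Fin r) F)) (α : ℚ)
    (m : ℕ) : Prop :=
  ∀ φ : MvPolynomial (Fin r) F →+* ℂ, Function.Injective φ → ∀ b : Polynomial ℂ,
    FEq (MvPolynomial.map φ U) b → (Polynomial.X - Polynomial.C (α : ℂ)) ^ (m + 1) ∣ b

/-- Every local `b`-function is divisible by `(s - α) ^ (m + 1)` for all injective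
specialisations. -/
def HUL {F : Type} [Field F] (U : MvPolynomial (Fin N) (MvPolynomial (Fin r) F)) (α : ℚ)
    (m : ℕ) : Prop :=
  ∀ φ : MvPolynomial (Fin r) F →+* ℂ, Function.Injective φ → ∀ b : Polynomial ℂ,
    FEqL (MvPolynomial.map φ U) b → (Polynomial.X - Polynomial.C (α : ℂ)) ^ (m + 1) ∣ b

/-- the finitely many pairs `(α, m)` -/
lemma fin_pairs {F : Type} [Field F] [Algebra F ℂ]
    (U : MvPolynomial (Fin N) (MvPolynomial (Fin r) F)) (hU : U ≠ 0) :
    ∃ T : Finset (ℚ × ℕ), (∀ α m, HU U α m → (α, m) ∈ T) ∧ ∀ α m, HUL U α m → (α, m) ∈ T := by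
  classical
  obtain ⟨ι0⟩ := emb (F := F) r
  have hinjA : Function.Injective (algebraMap (MvPolynomial (Fin r) F)
    (FractionRing (MvPolynomial (Fin r) F))) := IsFractionRing.injective _ _
  set φ : MvPolynomial (Fin r) F →+* ℂ := ι0.comp (algebraMap _ _) with hφ
  have hφi : Function.Injective φ := by
    rw [hφ, RingHom.coe_comp]
    exact ι0.injective.comp hinjA
  have hne : MvPolynomial.map φ U ≠ 0 := by
    intro h1
    exact hU (MvPolynomial.map_injective _ hφi (by rw [h1, map_zero]))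
  obtain ⟨b0, hb0, hb0F⟩ := bernstein _ hne
  have hfin : {α : ℚ | b0.IsRoot (α : ℂ)}.Finite := by
    have h1 : {z : ℂ | b0.IsRoot z}.Finite := Polynomial.finite_setOf_isRoot hb0
    exact h1.preimage (fun x _ y _ hxy => Rat.cast_injective hxy)
  have hdiv : ∀ (α : ℚ) (m : ℕ), (Polynomial.X - Polynomial.C (α : ℂ)) ^ (m + 1) ∣ b0 →
      (α, m) ∈ hfin.toFinset ×ˢ Finset.range (b0.natDegree + 1) := by
    intro α m h1
    refine Finset.mem_product.2 ⟨?_, ?_⟩
    · rw [Set.Finite.mem_toFinset]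
      exact Polynomial.dvd_iff_isRoot.1 ((dvd_pow_self _ (Nat.succ_ne_zero m)).trans h1)
    · have h2 := Polynomial.natDegree_le_of_dvd h1 hb0
      rw [Polynomial.natDegree_pow, Polynomial.natDegree_X_sub_C, mul_one] at h2
      exact Finset.mem_range.2 (by omega)
  exact ⟨_, fun α m h => hdiv α m (h φ hφi b0 hb0F), fun α m h => hdiv α m (h φ hφi b0 hb0F.toL)⟩

/-- **The universal statement.** -/
theorem univU {F : Type} [Field F] [Algebra F ℂ]
    (U : MvPolynomial (Fin N) (MvPolynomial (Fin r) F)) (hU : U ≠ 0) :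
    ∃ g : MvPolynomial (Fin r) F, g ≠ 0 ∧ ∀ a : Fin r → ℂ, aeval a g ≠ 0 → spec a U ≠ 0 ∧
      (∀ b : Polynomial ℂ, FEq (spec a U) b → ∀ (α : ℚ) (m : ℕ), HU U α m →
        (Polynomial.X - Polynomial.C (α : ℂ)) ^ (m + 1) ∣ b) ∧
      ∀ b : Polynomial ℂ, FEqL (spec a U) b → ∀ (α : ℚ) (m : ℕ), HUL U α m →
        (Polynomial.X - Polynomial.C (α : ℂ)) ^ (m + 1) ∣ b := by
  classical
  obtain ⟨T, hT, hTL⟩ := fin_pairs U hU
  obtain ⟨g, hg, hgP⟩ := exists_gF (F := F) (r := r) T (fun q a => HU U q.1 q.2 →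
      ∀ b : Polynomial ℂ, FEq (spec a U) b →
        (Polynomial.X - Polynomial.C (q.1 : ℂ)) ^ (q.2 + 1) ∣ b) (fun q _ => by
      by_cases hq : HU U q.1 q.2
      · obtain ⟨g, hg, hgb⟩ := coreU U hU q.1 q.2 hq
        exact ⟨g, hg, fun a ha _ b hb => hgb a ha b hb⟩
      · exact ⟨1, one_ne_zero, fun a _ hq' => absurd hq' hq⟩)
  obtain ⟨g', hg', hgP'⟩ := exists_gF (F := F) (r := r) T (fun q a => HUL U q.1 q.2 →
      ∀ b : Polynomial ℂ, FEqL (spec a U) b →
        (Polynomial.X - Polynomial.C (q.1 : ℂ)) ^ (q.2 + 1) ∣ b) (fun q _ => by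
      by_cases hq : HUL U q.1 q.2
      · obtain ⟨g, hg, hgb⟩ := coreUL U hU q.1 q.2 hq
        exact ⟨g, hg, fun a ha _ b hb => hgb a ha b hb⟩
      · exact ⟨1, one_ne_zero, fun a _ hq' => absurd hq' hq⟩)
  obtain ⟨w0, hw0⟩ := MvPolynomial.exists_coeff_ne_zero hU
  refine ⟨g * (g' * coeff w0 U), mul_ne_zero hg (mul_ne_zero hg' hw0), fun a ha => ?_⟩
  rw [map_mul, map_mul] at ha
  have ha1 := left_ne_zero_of_mul ha
  have ha2 := left_ne_zero_of_mul (right_ne_zero_of_mul ha)
  have ha3 := right_ne_zero_of_mul (right_ne_zero_of_mul ha)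
  refine ⟨?_, fun b hb α m hH => hgP a ha1 (α, m) (hT α m hH) hH b hb,
    fun b hb α m hH => hgP' a ha2 (α, m) (hTL α m hH) hH b hb⟩
  intro h1
  have h2 := congrArg (coeff w0) h1
  unfold spec at h2
  rw [coeff_map, coeff_zero] at h2
  exact ha3 h2

end Pool.Agent.TH231.PP
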