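import Pool.Agent.TH231.PP.Prod
import Pool.Agent.W425.GN.NdF

set_option autoImplicit false

/-! Generic nondegeneracy of tuples. -/

namespace Pool.Agent.TH231.PP

open MvPolynomial
open Pool.Agent.W423.NX
open Pool.Agent.W425.MM (NonD we wc)

variable {r N P : ℕ}

/-- the exponents `(e_k, v_j)`, `g j = k`, of `∑_k y_k g_k` -/
def cayV (g : Fin r → Fin (P+1)) (v : Fin r → Fin N → ℕ) : Fin r → Fin (P+1+N) → ℕ :=
  fun j => Fin.append (fun k => if g j = k then 1 else 0) (v j)

/-- the polynomial `∑_k y_k h_k` -/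
noncomputable def cayH {F : Type} [Field F] (h : Fin (P+1) → MvPolynomial (Fin N) F) :
    MvPolynomial (Fin (P+1+N)) F :=
  ∑ k, X (Fin.castAdd N k) * rename (Fin.natAdd (P+1)) (h k)

/-- The polynomial `∑_k y_k g_k` in the variables `y_0, …, y_P, x_1, …, x_N`, where
`g_k = ∑_{g j = k} a_j x ^ (v j) + h_k`, is Newton nondegenerate (`NonD`): for every weight
`u ∈ ℕ ^ (P + 1 + N)` its initial part has no singular zero in the torus. -/
def NonDT {F : Type} [Field F] [Algebra F ℂ] (g : Fin r → Fin (P+1)) (v : Fin r → Fin N → ℕ)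
    (h : Fin (P+1) → MvPolynomial (Fin N) F) (a : Fin r → ℂ) : Prop :=
  NonD (Fin.append (cayV g v) (we (cayH h)))
    (Fin.append a (fun l => algebraMap F ℂ (wc (cayH h) l)))

lemma supp_cayH {F : Type} [Field F] (h : Fin (P+1) → MvPolynomial (Fin N) F)
    (w : Fin (P+1+N) →₀ ℕ) (hw : w ∈ (cayH h).support) :
    ∃ k, ∃ e ∈ (h k).support, w = Finsupp.single (Fin.castAdd N k) 1 +
      Finsupp.mapDomain (Fin.natAdd (P+1)) e := by
  classical
  rw [mem_support_iff] at hw
  unfold cayH at hw
  rw [coeff_sum] at hw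
  obtain ⟨k, _, hk⟩ := Finset.exists_ne_zero_of_sum_ne_zero hw
  rw [coeff_X_mul'] at hk
  split_ifs at hk with h1
  · have h2 : w - Finsupp.single (Fin.castAdd N k) 1 ∈
      (rename (Fin.natAdd (P+1)) (h k)).support := mem_support_iff.2 hk
    rw [support_rename_of_injective (Fin.natAdd_injective N (P+1)), Finset.mem_image] at h2
    obtain ⟨e, he, he2⟩ := h2
    refine ⟨k, e, he, ?_⟩
    rw [he2]
    refine (add_tsub_cancel_of_le ?_).symm
    rw [Finsupp.single_le_iff]
    exact Nat.one_le_iff_ne_zero.2 (Finsupp.mem_support_iff.1 h1)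
  · exact absurd rfl hk

theorem gen_nonDT {F : Type} [Field F] [Algebra F ℂ] (loc : Prop) (g : Fin r → Fin (P+1))
    (v : Fin r → Fin N → ℕ) (h : Fin (P+1) → MvPolynomial (Fin N) F)
    (hg : ∀ k, ∃ j, g j = k) (hh : ∀ k, ∀ w ∈ (h k).support, HullG loc g v k w) :
    ∃ G : MvPolynomial (Fin r) F, G ≠ 0 ∧ ∀ a : Fin r → ℂ, aeval a G ≠ 0 → NonDT g v h a := by
  classical
  have hr : 0 < r := by
    obtain ⟨j, _⟩ := hg 0
    exact lt_of_le_of_lt (Nat.zero_le _) j.2
  refine Pool.Agent.W425.GN.gen_nonDF Pool.Agent.W425.GN.pF4 hr (cayV g v) (we (cayH h))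
    (fun l => ?_) (wc (cayH h))
  have h1 : ((cayH h).support.equivFin.symm l).1 ∈ (cayH h).support :=
    ((cayH h).support.equivFin.symm l).2
  set w := ((cayH h).support.equivFin.symm l).1 with hw
  obtain ⟨k, e, he, hwe⟩ := supp_cayH h w h1
  obtain ⟨c, hc0, hck, hc1, hc2, _⟩ := hh k e he
  refine ⟨c, hc0, hc1, fun i => ?_⟩
  have h2 : (Finsupp.equivFunOnFinite.symm (we (cayH h) l)) = w := by
    ext i
    rfl
  rw [h2, hwe]
  refine Fin.addCases (fun k' => ?_) (fun i => ?_) i
  · have h3 : (Finsupp.mapDomain (Fin.natAdd (P+1)) e) (Fin.castAdd N k') = 0 := by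
      refine Finsupp.mapDomain_of_notMem_range _ _ ?_
      rintro ⟨x, hx⟩
      have := congrArg Fin.val hx
      simp at this
      omega
    rw [Finsupp.add_apply, h3, add_zero]
    have h4 : ∀ j, c j * (cayV g v j (Fin.castAdd N k') : ℝ) = if k = k' then c j else 0 := by
      intro j
      unfold cayV
      rw [Fin.append_left]
      by_cases hj : g j = k
      · rw [hj]
        split_ifs <;> simp
      · rw [hck j hj]
        simp
    rw [Finset.sum_congr rfl fun j _ => h4 j]
    by_cases hkk : k = k'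
    · simp only [if_pos hkk]
      rw [hc1, hkk, Finsupp.single_eq_same, Nat.cast_one]
    · simp only [if_neg hkk]
      rw [Finset.sum_const_zero]
      exact Nat.cast_nonneg _
  · have h3 : (Finsupp.single (Fin.castAdd N k) 1 : Fin (P+1+N) →₀ ℕ) (Fin.natAdd (P+1) i) = 0 := by
      rw [Finsupp.single_apply, if_neg]
      intro hx
      have := congrArg Fin.val hx
      simp at this
      omega
    rw [Finsupp.add_apply, h3, zero_add, Finsupp.mapDomain_apply (Fin.natAdd_injective N (P+1))]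
    refine le_trans (le_of_eq ?_) (hc2 i)
    refine Finset.sum_congr rfl fun j _ => ?_
    unfold cayV
    rw [Fin.append_right]

end Pool.Agent.TH231.PP
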