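import Mathlib
import Pool.Agent.W602.GT.Der

set_option autoImplicit false

/-! Irreducible factors of polynomials with algebraically independent coefficients. -/

namespace Pool.Agent.TH231.PP

open MvPolynomial

variable {N : ℕ}

/-- the coefficientwise derivation -/
noncomputable def Dp {F : Type} [Field F] [Algebra F ℂ] (D : Derivation F ℂ ℂ)
    (p : MvPolynomial (Fin N) ℂ) : MvPolynomial (Fin N) ℂ :=
  ∑ w ∈ p.support, monomial w (D (coeff w p))

section
variable {F : Type} [Field F] [Algebra F ℂ] (D : Derivation F ℂ ℂ)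

lemma coeff_Dp (p : MvPolynomial (Fin N) ℂ) (w : Fin N →₀ ℕ) :
    coeff w (Dp D p) = D (coeff w p) := by
  classical
  unfold Dp
  rw [coeff_sum]
  simp only [coeff_monomial]
  rw [Finset.sum_ite_eq' p.support w]
  split_ifs with h
  · rfl
  · rw [notMem_support_iff.1 h, map_zero]

lemma Dp_add (p q : MvPolynomial (Fin N) ℂ) : Dp D (p + q) = Dp D p + Dp D q := by
  ext w
  rw [coeff_Dp, coeff_add, coeff_add, coeff_Dp, coeff_Dp, map_add]

lemma Dp_zero : Dp D (0 : MvPolynomial (Fin N) ℂ) = 0 := by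
  ext w
  rw [coeff_Dp, coeff_zero, map_zero]

lemma Dp_sum {ι : Type*} (s : Finset ι) (p : ι → MvPolynomial (Fin N) ℂ) :
    Dp D (∑ i ∈ s, p i) = ∑ i ∈ s, Dp D (p i) := by
  classical
  induction s using Finset.induction_on with
  | empty => rw [Finset.sum_empty, Finset.sum_empty, Dp_zero]
  | insert i s hi ih => rw [Finset.sum_insert hi, Finset.sum_insert hi, Dp_add, ih]

lemma Dp_mul (p q : MvPolynomial (Fin N) ℂ) : Dp D (p * q) = p * Dp D q + Dp D p * q := by
  classical
  ext w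
  rw [coeff_Dp, coeff_add, coeff_mul, coeff_mul, coeff_mul, map_sum, ← Finset.sum_add_distrib]
  refine Finset.sum_congr rfl fun x _ => ?_
  rw [Derivation.leibniz, coeff_Dp, coeff_Dp, smul_eq_mul, smul_eq_mul]
  ring

lemma Dp_monomial (w : Fin N →₀ ℕ) (c : ℂ) : Dp D (monomial w c) = monomial w (D c) := by
  classical
  ext u
  rw [coeff_Dp, coeff_monomial, coeff_monomial]
  split_ifs
  · rfl
  · rw [map_zero]

lemma Dp_map (h : MvPolynomial (Fin N) F) : Dp D (MvPolynomial.map (algebraMap F ℂ) h) = 0 := by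
  ext w
  rw [coeff_Dp, coeff_map, Derivation.map_algebraMap, coeff_zero]

lemma Dp_pow (p : MvPolynomial (Fin N) ℂ) (e : ℕ) :
    Dp D (p ^ (e + 1)) = ((e + 1 : ℕ) : MvPolynomial (Fin N) ℂ) * p ^ e * Dp D p := by
  induction e with
  | zero => simp
  | succ e ih =>
    rw [pow_succ, Dp_mul, ih]
    push_cast
    ring

/-- a common irreducible factor of `g` (with `D g = 0`) and `f` divides `D f` -/
theorem dvd_Dp (f g π : MvPolynomial (Fin N) ℂ) (hg0 : g ≠ 0) (hg : Dp D g = 0)
    (hπ : Irreducible π) (h1 : π ∣ g) (h2 : π ∣ f) : π ∣ Dp D f := by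
  have hprime : Prime π := hπ.prime
  obtain ⟨q, hq, hq2⟩ := (FiniteMultiplicity.of_not_isUnit hπ.not_isUnit
    hg0).exists_eq_pow_mul_and_not_dvd
  set e := multiplicity π g with he
  obtain ⟨e', he'⟩ : ∃ e', e = e' + 1 := by
    refine ⟨e - 1, ?_⟩
    have : e ≠ 0 := by
      intro h0
      rw [h0, pow_zero, one_mul] at hq
      exact hq2 (hq ▸ h1)
    omega
  rw [he'] at hq
  have h3 : Dp D (π ^ (e' + 1) * q) = 0 := by rw [← hq, hg]
  rw [Dp_mul, Dp_pow] at h3
  have h4 : π ^ e' * (π * Dp D q + ((e' + 1 : ℕ) : MvPolynomial (Fin N) ℂ) * Dp D π * q) = 0 := by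
    rw [← h3]
    ring
  have h5 : π * Dp D q + ((e' + 1 : ℕ) : MvPolynomial (Fin N) ℂ) * Dp D π * q = 0 :=
    (mul_eq_zero.1 h4).resolve_left (pow_ne_zero _ hπ.ne_zero)
  have h6 : π ∣ (((e' + 1 : ℕ) : MvPolynomial (Fin N) ℂ) * Dp D π) * q := by
    refine ⟨-Dp D q, ?_⟩
    linear_combination h5
  have h7 : π ∣ Dp D π := by
    rcases hprime.dvd_or_dvd h6 with h8 | h8
    · rcases hprime.dvd_or_dvd h8 with h9 | h9
      · exfalso
        have h10 : IsUnit (((e' + 1 : ℕ) : MvPolynomial (Fin N) ℂ)) := by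
          have h11 : (((e' + 1 : ℕ) : MvPolynomial (Fin N) ℂ)) = C ((e' + 1 : ℕ) : ℂ) := by
            rw [map_natCast]
          rw [h11]
          exact (isUnit_iff_ne_zero.2 (by exact_mod_cast Nat.succ_ne_zero e')).map C
        exact hπ.not_isUnit (isUnit_of_dvd_unit h9 h10)
      · exact h9
    · exact absurd h8 hq2
  obtain ⟨u, hu⟩ := h2
  rw [hu, Dp_mul]
  exact dvd_add (dvd_mul_right _ _) (h7.mul_right _)

end

/-- a polynomial all of whose irreducible factors are variables is a monomial -/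
theorem monomial_of (x : MvPolynomial (Fin N) ℂ) (hx : ∀ π : MvPolynomial (Fin N) ℂ,
    Irreducible π → π ∣ x → ∃ i, π ∣ X i) : ∃ w c, x = monomial w c := by
  classical
  revert hx
  induction x using UniqueFactorizationMonoid.induction_on_prime with
  | h₁ => exact fun _ => ⟨0, 0, (map_zero _).symm⟩
  | h₂ x hx =>
    intro _
    obtain ⟨c, _, hc⟩ := MvPolynomial.isUnit_iff_eq_C_of_isReduced.1 hx
    exact ⟨0, c, hc⟩
  | h₃ a p ha hp ih =>
    intro hx
    obtain ⟨w, c, hw⟩ := ih fun π h1 h2 => hx π h1 (h2.mul_left _)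
    obtain ⟨i, hi⟩ := hx p hp.irreducible (dvd_mul_right _ _)
    have h1 : Irreducible (X i : MvPolynomial (Fin N) ℂ) := X_prime.irreducible
    obtain ⟨u, hu⟩ := (hp.irreducible.associated_of_dvd h1 hi).symm
    obtain ⟨d, _, hd⟩ := MvPolynomial.isUnit_iff_eq_C_of_isReduced.1 u.isUnit
    refine ⟨Finsupp.single i 1 + w, d * c, ?_⟩
    rw [← hu, hd, hw, X, C_apply, monomial_mul, monomial_mul]
    simp

/-- an irreducible factor of a monomial is a variable -/
lemma var_of_dvd (π : MvPolynomial (Fin N) ℂ) (hπ : Irreducible π) (w : Fin N →₀ ℕ)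
    (h : π ∣ monomial w 1) : ∃ i, π ∣ X i := by
  classical
  rw [monomial_eq, map_one, one_mul, Finsupp.prod_fintype _ _ (fun _ => pow_zero _)] at h
  obtain ⟨i, _, hi⟩ := (Prime.dvd_finsetProd_iff hπ.prime _).1 h
  exact ⟨i, hπ.prime.dvd_of_dvd_pow hi⟩

end Pool.Agent.TH231.PP
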