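import Pool.Agent.TH231.PP.Own
import Pool.Agent.W423.NX.Defs

set_option autoImplicit false

/-! Own irreducible factors for algebraically independent coefficients. -/

namespace Pool.Agent.TH231.PP

open MvPolynomial
open Pool.Agent.W423.MG
open Pool.Agent.W423.NX

variable {r N P : ℕ}

/-- derivations with given values on an algebraically independent family -/
theorem exists_der_indep {F : Type} [Field F] [Algebra F ℂ] (a : Fin r → ℂ)
    (ha : AlgebraicIndependent F a) (j0 : Fin r) :
    ∃ D : Derivation F ℂ ℂ, D (a j0) = 1 ∧ ∀ j, j ≠ j0 → D (a j) = 0 := by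
  classical
  have hcF : CharZero F := RingHom.charZero (algebraMap F ℂ)
  have h1 : AlgebraicIndepOn F id (Set.range a) := ha.coe_range
  obtain ⟨t, ht1, ht2⟩ := exists_isTranscendenceBasis_superset h1
  obtain ⟨D, hD⟩ := Pool.Agent.W602.GT.exists_der (L := F) (K := ℂ) ((↑) : t → ℂ) ht2
    (fun x => if (x : ℂ) = a j0 then 1 else 0)
  have h2 : ∀ j, D (a j) = if a j = a j0 then 1 else 0 := fun j =>
    hD ⟨a j, ht1 ⟨j, rfl⟩⟩
  refine ⟨D, by rw [h2, if_pos rfl], fun j hj => ?_⟩
  rw [h2, if_neg]
  exact fun h => hj (ha.injective h)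

/-- `G k` has an irreducible factor which does not divide the other `G l` (and, if `loc`, vanishes
at the origin) -/
def OwnAt (loc : Prop) (G : Fin (P+1) → MvPolynomial (Fin N) ℂ) (k : Fin (P+1)) : Prop :=
  ∃ π : MvPolynomial (Fin N) ℂ, Irreducible π ∧ π ∣ G k ∧ (∀ l, l ≠ k → ¬ π ∣ G l) ∧
    (loc → constantCoeff π = 0)

/-- The exponents of the group `k` are not all the same; if `loc`, none of them is the least one. -/
def TwoV (loc : Prop) (g : Fin r → Fin (P+1)) (v : Fin r → Fin N → ℕ) (k : Fin (P+1)) : Prop :=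
  (∃ j j', g j = k ∧ g j' = k ∧ v j ≠ v j') ∧
    (loc → ∀ j, g j = k → ∃ j' i, g j' = k ∧ v j' i < v j i)

lemma mon_eq (w : Fin N → ℕ) (c : ℂ) : (C c : MvPolynomial (Fin N) ℂ) * ∏ i, X i ^ w i =
    monomial (Finsupp.equivFunOnFinite.symm w) c := by
  rw [MvPolynomial.monomial_eq, Finsupp.prod_fintype _ _ (fun _ => pow_zero _)]
  rfl

lemma Dp_polyG {F : Type} [Field F] [Algebra F ℂ] (g : Fin r → Fin (P+1))
    (v : Fin r → Fin N → ℕ) (a : Fin r → ℂ) (h : Fin (P+1) → MvPolynomial (Fin N) F)
    (k : Fin (P+1)) (D : Derivation F ℂ ℂ) :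
    Dp D (polyH g v a h k) = ∑ j, if g j = k then
      monomial (Finsupp.equivFunOnFinite.symm (v j)) (D (a j)) else 0 := by
  unfold polyH polyG
  rw [Dp_add, Dp_map, add_zero, Dp_sum]
  refine Finset.sum_congr rfl fun j _ => ?_
  split_ifs
  · rw [mon_eq, Dp_monomial]
  · exact Dp_zero D

lemma Dp_single {F : Type} [Field F] [Algebra F ℂ] (g : Fin r → Fin (P+1))
    (v : Fin r → Fin N → ℕ) (a : Fin r → ℂ) (h : Fin (P+1) → MvPolynomial (Fin N) F)
    (k : Fin (P+1)) (D : Derivation F ℂ ℂ) (j0 : Fin r) (hD : D (a j0) = 1)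
    (hD' : ∀ j, j ≠ j0 → D (a j) = 0) :
    Dp D (polyH g v a h k) = if g j0 = k then
      monomial (Finsupp.equivFunOnFinite.symm (v j0)) 1 else 0 := by
  classical
  rw [Dp_polyG, Finset.sum_eq_single j0]
  · rw [hD]
  · intro j _ hj
    rw [hD' j hj, map_zero, ite_self]
  · intro h3
    exact absurd (Finset.mem_univ _) h3

lemma v_mem {F : Type} [Field F] [Algebra F ℂ] (g : Fin r → Fin (P+1))
    (v : Fin r → Fin N → ℕ) (a : Fin r → ℂ) (h : Fin (P+1) → MvPolynomial (Fin N) F)
    (ha : AlgebraicIndependent F a) (j0 : Fin r) :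
    coeff (Finsupp.equivFunOnFinite.symm (v j0)) (polyH g v a h (g j0)) ≠ 0 := by
  classical
  obtain ⟨D, hD, hD'⟩ := exists_der_indep a ha j0
  intro h0
  have h1 := coeff_Dp D (polyH g v a h (g j0)) (Finsupp.equivFunOnFinite.symm (v j0))
  rw [h0, map_zero, Dp_single g v a h (g j0) D j0 hD hD', if_pos rfl, coeff_monomial,
    if_pos rfl] at h1
  exact one_ne_zero h1

/-- a polynomial whose irreducible factors which vanish at the origin are variables is the product
of a monomial and a unit at the origin -/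
theorem monomial_of_loc (x : MvPolynomial (Fin N) ℂ) (hx0 : x ≠ 0)
    (hx : ∀ π : MvPolynomial (Fin N) ℂ,
    Irreducible π → π ∣ x → constantCoeff π = 0 → ∃ i, π ∣ X i) :
    ∃ w u, x = monomial w 1 * u ∧ constantCoeff u ≠ 0 := by
  classical
  revert hx0 hx
  induction x using UniqueFactorizationMonoid.induction_on_prime with
  | h₁ => exact fun h0 => absurd rfl h0
  | h₂ x hx =>
    intro _ _
    refine ⟨0, x, ?_, (hx.map constantCoeff).ne_zero⟩
    rw [show (monomial (0 : Fin N →₀ ℕ) (1 : ℂ)) = 1 from rfl, one_mul]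
  | h₃ a p ha hp ih =>
    intro _ hx
    obtain ⟨w, u, hw, hu⟩ := ih ha fun π h1 h2 h3 => hx π h1 (h2.mul_left _) h3
    by_cases hp0 : constantCoeff p = 0
    · obtain ⟨i, hi⟩ := hx p hp.irreducible (dvd_mul_right _ _) hp0
      have h1 : Irreducible (X i : MvPolynomial (Fin N) ℂ) := X_prime.irreducible
      obtain ⟨e, he⟩ := (hp.irreducible.associated_of_dvd h1 hi).symm
      refine ⟨Finsupp.single i 1 + w, e * u, ?_, ?_⟩
      · rw [← he, hw, show (monomial (Finsupp.single i 1 + w) (1 : ℂ)) =
          X i * monomial w 1 by rw [X, monomial_mul, one_mul]]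
        ring
      · rw [map_mul]
        exact mul_ne_zero (e.isUnit.map constantCoeff).ne_zero hu
    · refine ⟨w, p * u, ?_, ?_⟩
      · rw [hw]
        ring
      · rw [map_mul]
        exact mul_ne_zero hp0 hu

theorem polyH_ne {F : Type} [Field F] [Algebra F ℂ] (g : Fin r → Fin (P+1))
    (v : Fin r → Fin N → ℕ) (a : Fin r → ℂ) (h : Fin (P+1) → MvPolynomial (Fin N) F)
    (ha : AlgebraicIndependent F a) (hg : ∀ k, ∃ j, g j = k) (k : Fin (P+1)) :
    polyH g v a h k ≠ 0 := by
  obtain ⟨j, rfl⟩ := hg k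
  intro h0
  apply v_mem g v a h ha j
  rw [h0, coeff_zero]

/-- **Own factors.** -/
theorem own_vg {F : Type} [Field F] [Algebra F ℂ] (loc : Prop) (g : Fin r → Fin (P+1))
    (v : Fin r → Fin N → ℕ) (a : Fin r → ℂ) (h : Fin (P+1) → MvPolynomial (Fin N) F)
    (ha : AlgebraicIndependent F a) (hg : ∀ k, ∃ j, g j = k)
    (hh : ∀ k, ∀ w ∈ (h k).support, HullG loc g v k w) (k : Fin (P+1))
    (hk : TwoV loc g v k) : OwnAt loc (polyH g v a h) k := by
  classical
  by_contra hcon
  have hcon2 : ∀ π : MvPolynomial (Fin N) ℂ, Irreducible π → π ∣ polyH g v a h k →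
      (loc → constantCoeff π = 0) → ∃ i, π ∣ X i := by
    intro π h1 h2 h3
    have h4 : ∃ l, l ≠ k ∧ π ∣ polyH g v a h l := by
      by_contra h5
      push Not at h5
      exact hcon ⟨π, h1, h2, h5, h3⟩
    obtain ⟨l, hl, h5⟩ := h4
    obtain ⟨⟨j, _, hj, _⟩, _⟩ := hk
    obtain ⟨D, hD, hD'⟩ := exists_der_indep a ha j
    have h6 : Dp D (polyH g v a h l) = 0 := by
      rw [Dp_single g v a h l D j hD hD', if_neg]
      rw [hj]
      exact hl.symm
    have h7 := dvd_Dp D (polyH g v a h k) (polyH g v a h l) π (polyH_ne g v a h ha hg l) h6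
      h1 h5 h2
    rw [Dp_single g v a h k D j hD hD', if_pos hj] at h7
    exact var_of_dvd π h1 _ h7
  obtain ⟨⟨j, j', hj, hj', hne⟩, hloc⟩ := hk
  have hcj := v_mem g v a h ha j
  have hcj' := v_mem g v a h ha j'
  rw [hj] at hcj
  rw [hj'] at hcj'
  by_cases hL : loc
  · obtain ⟨w, u, hw, hu⟩ := monomial_of_loc _ (polyH_ne g v a h ha hg k)
      fun π h1 h2 h3 => hcon2 π h1 h2 fun _ => h3
    -- `w` is a lower bound
    have hlow : ∀ e, coeff e (polyH g v a h k) ≠ 0 → w ≤ e := by
      intro e he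
      by_contra hcon3
      rw [hw, coeff_monomial_mul', if_neg hcon3] at he
      exact he rfl
    have hwc : coeff w (polyH g v a h k) ≠ 0 := by
      rw [hw, coeff_monomial_mul', if_pos le_rfl, tsub_self, one_mul]
      exact hu
    have hvj : ∀ i, g i = k → ∀ l, w l ≤ v i l := by
      intro i hi l
      have h1 := v_mem g v a h ha i
      rw [hi] at h1
      exact hlow _ h1 l
    -- `w` is one of the exponents
    have hmem : ∃ i, g i = k ∧ ∀ l, v i l = w l := by
      by_cases hwh : w ∈ (h k).support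
      · obtain ⟨c, hc0, hck, hc1, hc2, _⟩ := hh k w hwh
        obtain ⟨i, hi⟩ : ∃ i, c i ≠ 0 := by
          by_contra h5
          push Not at h5
          rw [Finset.sum_eq_zero fun j _ => h5 j] at hc1
          exact zero_ne_one hc1
        have hik : g i = k := by
          by_contra h5
          exact hi (hck i h5)
        refine ⟨i, hik, fun l => le_antisymm ?_ (hvj i hik l)⟩
        by_contra h5
        push Not at h5
        have h6 : (w l : ℝ) < ∑ j, c j * (v j l : ℝ) := by
          have h7 : ∑ j, c j * (w l : ℝ) < ∑ j, c j * (v j l : ℝ) := by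
            refine Finset.sum_lt_sum (fun j _ => ?_) ⟨i, Finset.mem_univ i, ?_⟩
            · by_cases hjk : g j = k
              · exact mul_le_mul_of_nonneg_left (by exact_mod_cast hvj j hjk l) (hc0 j)
              · rw [hck j hjk, zero_mul, zero_mul]
            · exact mul_lt_mul_of_pos_left (by exact_mod_cast h5)
                (lt_of_le_of_ne (hc0 i) (Ne.symm hi))
          rwa [← Finset.sum_mul, hc1, one_mul] at h7
        exact absurd (hc2 l) (not_le.2 h6)
      · have h1 : coeff w (polyG g v a k) ≠ 0 := by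
          intro h2
          apply hwc
          unfold polyH
          rw [coeff_add, h2, coeff_map, notMem_support_iff.1 hwh, map_zero, add_zero]
        unfold polyG at h1
        rw [coeff_sum] at h1
        obtain ⟨i, _, hi⟩ := Finset.exists_ne_zero_of_sum_ne_zero h1
        by_cases hik : g i = k
        · rw [if_pos hik, mon_eq, coeff_monomial] at hi
          refine ⟨i, hik, fun l => ?_⟩
          have h2 : Finsupp.equivFunOnFinite.symm (v i) = w := by
            by_contra h3
            rw [if_neg h3] at hi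
            exact hi rfl
          rw [← h2]
          rfl
        · rw [if_neg hik, coeff_zero] at hi
          exact absurd rfl hi
    obtain ⟨i, hik, hi⟩ := hmem
    obtain ⟨i', l, hi', hl⟩ := hloc hL i hik
    have := hvj i' hi' l
    rw [← hi l] at this
    omega
  · obtain ⟨w, c, hw⟩ := monomial_of _ fun π h1 h2 => hcon2 π h1 h2 fun h3 => absurd h3 hL
    rw [hw, coeff_monomial] at hcj hcj'
    have h1 : w = Finsupp.equivFunOnFinite.symm (v j) := by
      by_contra h3
      rw [if_neg h3] at hcj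
      exact hcj rfl
    have h2 : w = Finsupp.equivFunOnFinite.symm (v j') := by
      by_contra h3
      rw [if_neg h3] at hcj'
      exact hcj' rfl
    exact hne (Finsupp.equivFunOnFinite.symm.injective (h1.symm.trans h2))

end Pool.Agent.TH231.PP
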