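import Pool.Agent.TH231.PP.Core
import Pool.Agent.TH231.PP.Alg
import Pool.Agent.TH231.PP.Own2
import Pool.Agent.W423.NX.FinP
import Pool.Agent.W423.NT.FinP
import Pool.Agent.W351.NT.Root

set_option autoImplicit false

/-! Products of powers, generic coefficients. -/

namespace Pool.Agent.TH231.PP

open MvPolynomial Pool.Agent.H628R4.TZ Pool.Agent.W425.SM
open Pool.Agent.H628R4.TP (IsBFunction)
open Pool.Agent.W423.MG
open Pool.Agent.W423.NC
open Pool.Agent.W423.NX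
open Pool.Agent.W425.GN (RR Cp)

variable {r N P : ℕ}

/-- the universal product -/
noncomputable def UP {F : Type} [Field F] (g : Fin r → Fin (P+1)) (v : Fin r → Fin N → ℕ)
    (h : Fin (P+1) → MvPolynomial (Fin N) F) (m : Fin (P+1) → ℕ) :
    MvPolynomial (Fin N) (MvPolynomial (Fin r) F) := ∏ k, genX g v h k ^ m k

lemma genX_ne {F : Type} [Field F] (g : Fin r → Fin (P+1)) (v : Fin r → Fin N → ℕ)
    (h : Fin (P+1) → MvPolynomial (Fin N) F) (hg : ∀ k, ∃ j, g j = k) (k : Fin (P+1)) :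
    genX g v h k ≠ 0 := by
  classical
  obtain ⟨j0, hj0⟩ := hg k
  intro h0
  have h1 : ∀ j, (C (X j : MvPolynomial (Fin r) F) : MvPolynomial (Fin N) _) *
      ∏ i, X i ^ v j i = monomial (Finsupp.equivFunOnFinite.symm (v j)) (X j) := by
    intro j
    rw [MvPolynomial.monomial_eq, Finsupp.prod_fintype _ _ (fun _ => pow_zero _)]
    rfl
  have h2 := congrArg (fun p => coeff (Finsupp.single j0 1)
    (coeff (Finsupp.equivFunOnFinite.symm (v j0)) p)) h0
  unfold genX at h2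
  rw [coeff_add, coeff_sum, coeff_add, coeff_sum, coeff_map, coeff_C, if_neg, add_zero,
    coeff_zero, coeff_zero, Finset.sum_eq_single j0] at h2
  · rw [if_pos hj0, h1, coeff_monomial, if_pos rfl, coeff_X, if_pos rfl] at h2
    exact one_ne_zero h2
  · intro j _ hj
    split_ifs
    · rw [h1, coeff_monomial]
      split_ifs
      · rw [coeff_X, if_neg]
        intro h3
        exact hj (Finsupp.single_left_injective one_ne_zero h3)
      · exact coeff_zero _
    · rw [coeff_zero, coeff_zero]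
  · intro h3
    exact absurd (Finset.mem_univ _) h3
  · intro h3
    have := congrArg (fun f => f j0) h3
    simp at this

lemma UP_ne {F : Type} [Field F] (g : Fin r → Fin (P+1)) (v : Fin r → Fin N → ℕ)
    (h : Fin (P+1) → MvPolynomial (Fin N) F) (hg : ∀ k, ∃ j, g j = k) (m : Fin (P+1) → ℕ) :
    UP g v h m ≠ 0 := by
  unfold UP
  exact Finset.prod_ne_zero_iff.2 fun k _ => pow_ne_zero _ (genX_ne g v h hg k)

lemma spec_genX {F : Type} [Field F] [Algebra F ℂ] (g : Fin r → Fin (P+1))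
    (v : Fin r → Fin N → ℕ) (h : Fin (P+1) → MvPolynomial (Fin N) F) (a : Fin r → ℂ)
    (k : Fin (P+1)) : spec a (genX g v h k) = polyH g v a h k := by
  unfold spec genX polyH polyG
  rw [map_add, map_sum, MvPolynomial.map_map]
  congr 1
  · refine Finset.sum_congr rfl fun j _ => ?_
    split_ifs
    · simp
    · rw [map_zero]
  · congr 2
    refine RingHom.ext fun c => ?_
    exact algHom_C (aeval a : MvPolynomial (Fin r) F →ₐ[F] ℂ) c

lemma spec_UP {F : Type} [Field F] [Algebra F ℂ] (g : Fin r → Fin (P+1))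
    (v : Fin r → Fin N → ℕ) (h : Fin (P+1) → MvPolynomial (Fin N) F) (m : Fin (P+1) → ℕ)
    (a : Fin r → ℂ) : spec a (UP g v h m) = ∏ k, polyH g v a h k ^ m k := by
  unfold UP
  have h1 : spec a (∏ k, genX g v h k ^ m k) = ∏ k, spec a (genX g v h k) ^ m k := by
    unfold spec
    rw [map_prod]
    exact Finset.prod_congr rfl fun k _ => map_pow _ _ _
  rw [h1]
  exact Finset.prod_congr rfl fun k _ => by rw [spec_genX]

lemma scal_one (f : MvPolynomial (Fin N) ℂ) : scal (fun _ => 1) f = f := by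
  unfold scal
  have h1 : (fun l : Fin N => C (1 : ℂ) * X l : Fin N → MvPolynomial (Fin N) ℂ) = X := by
    funext l
    rw [map_one, one_mul]
  rw [h1, aeval_X_left, AlgHom.id_apply]

theorem feq_of_J (loc : Prop) (S : Submonoid (MvPolynomial (Fin N) ℂ))
    (hS : ∀ u ∈ S, constantCoeff u = 1 ∧ (¬ loc → u = 1))
    (G : Fin (P+1) → MvPolynomial (Fin N) ℂ) (m : Fin (P+1) → ℕ) (b : Polynomial ℂ)
    (hb : Pool.Agent.W591.GC.J S (∏ k, G k ^ m k) 1 b) :
    Pool.Agent.W423.NT.FEQ (d := 1) loc (fun k _ => m k) G (Polynomial.aeval (X 0) b) := by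
  obtain ⟨u, hu, Q, hQ⟩ := (Pool.Agent.W591.GC.J_iff S _ b).1 hb
  obtain ⟨D, hD⟩ := Pool.Agent.W351.NT.fromQ G m b u Q (fun s => by rw [← hQ s]; ring)
  exact ⟨u, D, (hS u hu).1, (hS u hu).2, hD⟩

/-- Roots of `b` that come from the divisors `g_k = 0` themselves. -/
theorem own_root (loc : Prop) (G : Fin (P+1) → MvPolynomial (Fin N) ℂ)
    (m : Fin (P+1) → ℕ) (b : Polynomial ℂ) (hG : ∀ k, G k ≠ 0) (hm : ∀ k, 1 ≤ m k)
    (hFE : Pool.Agent.W423.NT.FEQ (d := 1) loc (fun k _ => m k) G (Polynomial.aeval (X 0) b))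
    (k : Fin (P+1)) (hown : OwnAt loc G k) (i : ℕ) (hi1 : 1 ≤ i) (hi2 : i ≤ m k) :
    b.eval (-(i : ℂ) / (m k : ℂ)) = 0 := by
  classical
  obtain ⟨π, hπ, hdk, hdl, hπ0⟩ := hown
  have hprime : Prime π := hπ.prime
  obtain ⟨u, hu, hu2⟩ := (FiniteMultiplicity.of_not_isUnit hπ.not_isUnit
    (hG k)).exists_eq_pow_mul_and_not_dvd
  set c := multiplicity π (G k) with hc
  have hc1 : 1 ≤ c := by
    by_contra hlt
    have h0 : c = 0 := by omega
    rw [h0, pow_zero, one_mul] at hu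
    exact hu2 (hu ▸ hdk)
  have hf : (∏ l, G l ^ m l) = π ^ (c * m k) *
      (u ^ m k * ∏ l ∈ Finset.univ.erase k, G l ^ m l) := by
    rw [← Finset.mul_prod_erase Finset.univ _ (Finset.mem_univ k)]
    conv_lhs => rw [hu]
    ring
  have hnd : ¬ π ∣ (u ^ m k * ∏ l ∈ Finset.univ.erase k, G l ^ m l) := by
    intro hd
    rcases hprime.dvd_or_dvd hd with h1 | h1
    · exact hu2 (hprime.dvd_of_dvd_pow h1)
    · obtain ⟨l, hl, h2⟩ := (Prime.dvd_finsetProd_iff hprime _).1 h1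
      exact hdl l (Finset.ne_of_mem_erase hl) (hprime.dvd_of_dvd_pow h2)
  have hroot := Pool.Agent.W351.NT.root loc G m b π _ (c * m k) hFE hπ hnd hπ0 hf
    (c * i) (Nat.mul_pos hc1 hi1) (Nat.mul_le_mul_left c hi2)
  have hmk : (m k : ℂ) ≠ 0 := by
    have := hm k
    exact_mod_cast (by omega : m k ≠ 0)
  have hcc : (c : ℂ) ≠ 0 := by exact_mod_cast (by omega : c ≠ 0)
  have e : -(i : ℂ) / (m k : ℂ) = -((c * i : ℕ) : ℂ) / ((c * m k : ℕ) : ℂ) := by
    push_cast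
    field_simp
  rw [e]
  exact hroot

/-- The case of an injective specialisation. -/
theorem vg {F : Type} [Field F] (loc : Prop) (g : Fin r → Fin (P+1)) (v : Fin r → Fin N → ℕ)
    (h : Fin (P+1) → MvPolynomial (Fin N) F) (m : Fin (P+1) → ℕ) (hm : ∀ k, 1 ≤ m k)
    (hg : ∀ k, ∃ j, g j = k) (hh : ∀ k, ∀ w ∈ (h k).support, HullG loc g v k w)
    (φ : MvPolynomial (Fin r) F →+* ℂ) (hφ : Function.Injective φ)
    (S : Submonoid (MvPolynomial (Fin N) ℂ))
    (hS : ∀ u ∈ S, constantCoeff u = 1 ∧ (¬ loc → u = 1))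
    (b : Polynomial ℂ)
    (hb : Pool.Agent.W591.GC.J S (MvPolynomial.map φ (UP g v h m)) 1 b) :
    (∀ θ : Fin r → ℝ, LinearIndependent ℚ θ → ∀ R : SmoothFan N, PrincipalG g v R →
    ∃ (n : ℕ) (Z : Polynomial ℂ), algebraMap (Polynomial ℂ) (RatFunc ℂ) (b * Dx m n) *
      topZetaP loc g v θ m R = algebraMap (Polynomial ℂ) (RatFunc ℂ) Z) ∧
    ∀ k, TwoV loc g v k → ∀ i : ℕ, 1 ≤ i → i ≤ m k → b.eval (-(i : ℂ) / (m k : ℂ)) = 0 := by
  classical
  let algCF : Algebra (Cp F) ℂ := (φ.comp (C : F →+* MvPolynomial (Fin r) F)).toAlgebra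
  have hind : @AlgebraicIndependent (Fin r) (Cp F) ℂ (fun j => φ (X j)) _ _ algCF := by
    rw [algebraicIndependent_iff_injective_aeval]
    have h1 : ∀ p : MvPolynomial (Fin r) (Cp F),
        @aeval (Cp F) ℂ (Fin r) _ _ algCF (fun j => φ (X j)) p =
          φ (show MvPolynomial (Fin r) F from p) := by
      intro p
      induction p using MvPolynomial.induction_on with
      | C c =>
        rw [aeval_C]
        rfl
      | add p q hp hq =>
        rw [map_add, hp, hq, ← map_add]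
        rfl
      | mul_X p j hp =>
        rw [map_mul, hp, aeval_X, ← map_mul]
        rfl
    intro p q hpq
    rw [h1, h1] at hpq
    exact hφ hpq
  have hgen : ∀ k, MvPolynomial.map φ (genX g v h k) =
      @polyH r N P (Cp F) _ algCF g v (fun j => φ (X j))
        (show Fin (P+1) → MvPolynomial (Fin N) (Cp F) from h) k := by
    intro k
    unfold genX polyH polyG
    rw [map_add, map_sum, MvPolynomial.map_map]
    congr 1
    refine Finset.sum_congr rfl fun j _ => ?_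
    split_ifs
    · simp
    · rw [map_zero]
  have hprod : MvPolynomial.map φ (UP g v h m) = ∏ k, @polyH r N P (Cp F) _ algCF g v
      (fun j => φ (X j)) (show Fin (P+1) → MvPolynomial (Fin N) (Cp F) from h) k ^ m k := by
    unfold UP
    rw [map_prod]
    exact Finset.prod_congr rfl fun k _ => by rw [map_pow, hgen k]
  refine ⟨fun θ hθ R hR => @prodC r N P (Cp F) _ algCF loc S hS g v (fun j => φ (X j))
    (show Fin (P+1) → MvPolynomial (Fin N) (Cp F) from h) m hm hg hind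
    (fun k w hw => hh k w hw) (MvPolynomial.map φ (UP g v h m)) 1 (fun _ => 1) one_ne_zero
    (fun _ => one_ne_zero) (by
      rw [scal_one, map_one, one_mul]
      exact hprod) θ hθ R hR b hb, fun k hk i hi1 hi2 => ?_⟩
  rw [hprod] at hb
  exact own_root loc _ m b (fun l => @polyH_ne r N P (Cp F) _ algCF g v (fun j => φ (X j))
    (show Fin (P+1) → MvPolynomial (Fin N) (Cp F) from h) hind hg l) hm
    (feq_of_J loc S hS _ m b hb) k (@own_vg r N P (Cp F) _ algCF loc g v (fun j => φ (X j))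
    (show Fin (P+1) → MvPolynomial (Fin N) (Cp F) from h) hind hg
    (fun k w hw => hh k w hw) k hk) i hi1 hi2

lemma rho_pos (R : SmoothFan N) (σ : Finset (Fin N → ℕ)) (hσ : σ ∈ R.cones) (ρ : Fin N → ℕ)
    (hρ : ρ ∈ σ) : 0 < ∑ l, ρ l := by
  obtain ⟨B, hB, hB2⟩ := R.smooth σ hσ
  obtain ⟨i, hi⟩ := hB2 ρ hρ
  by_contra hcon
  have h0 : ∑ l, ρ l = 0 := by omega
  have h1 : ∀ l, ρ l = 0 := fun l => by
    have := Finset.sum_eq_zero_iff.1 h0 l (Finset.mem_univ l)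
    exact this
  have h2 : B.det = 0 := Matrix.det_eq_zero_of_row_eq_zero i fun l => by
    rw [hi l, h1 l]
    rfl
  rw [h2] at hB
  exact not_isUnit_zero hB

lemma rr_topZetaP (loc : Prop) (g : Fin r → Fin (P+1)) (v : Fin r → Fin N → ℕ) (θ : Fin r → ℝ)
    (m : Fin (P+1) → ℕ) (R : SmoothFan N) : RR (topZetaP loc g v θ m R) := by
  classical
  unfold topZetaP
  refine RR.sum _ _ fun σ _ => RR.mul (RR.sum _ _ fun K _ => RR.mul (RR_int _)
    (RR.prod _ _ fun k _ => ?_)) (RR.prod _ _ fun ρ _ => RR.lin _ _)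
  have := RR.lin (m k) 1
  simpa using this

lemma r0_topZetaP (loc : Prop) (g : Fin r → Fin (P+1)) (v : Fin r → Fin N → ℕ) (θ : Fin r → ℝ)
    (m : Fin (P+1) → ℕ) (R : SmoothFan N) : R0 (topZetaP loc g v θ m R) := by
  classical
  unfold topZetaP
  refine R0.sum _ _ fun σ hσ => R0.mul (R0.sum _ _ fun K _ => R0.mul (R0.int _)
    (R0.prod _ _ fun k _ => ?_)) (R0.prod _ _ fun ρ hρ => R0.lin _ _
      (rho_pos R σ (Finset.mem_filter.1 hσ).1 ρ hρ))
  have := R0.lin (m k) 1 one_pos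
  simpa using this

/-- the poles in `[-1, 0]` -/
theorem pole_ge (loc : Prop) (g : Fin r → Fin (P+1)) (v : Fin r → Fin N → ℕ) (θ : Fin r → ℝ)
    (R : SmoothFan N) (m : Fin (P+1) → ℕ) (b : Polynomial ℂ) (hm : ∀ k, 1 ≤ m k)
    (hroots : ∀ (k : Fin (P+1)) (i : ℕ), 1 ≤ i → i ≤ m k → b.eval (-(i : ℂ) / (m k : ℂ)) = 0)
    (n : ℕ) (Z : Polynomial ℂ)
    (hZ : algebraMap (Polynomial ℂ) (RatFunc ℂ) (b * Dx m n) *
      topZetaP loc g v θ m R = algebraMap (Polynomial ℂ) (RatFunc ℂ) Z)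
    (s : ℂ) (hs1 : -1 ≤ s.re) (hs : (topZetaP loc g v θ m R).denom.eval s = 0) :
    b.eval s = 0 := by
  have h1 := (Pool.Agent.W425.GN.dvd_iff _ _).1 ⟨Z, hZ⟩
  obtain ⟨D', hD'⟩ := h1
  have h2 : (b * Dx m n).eval s = 0 := by rw [hD', Polynomial.eval_mul, hs, zero_mul]
  rw [Polynomial.eval_mul] at h2
  rcases mul_eq_zero.1 h2 with h3 | h3
  · exact h3
  unfold Dx at h3
  rw [Polynomial.eval_pow] at h3
  have h4 := (pow_eq_zero_iff (by norm_num : (3:ℕ) ≠ 0)).1 h3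
  rw [Polynomial.eval_prod, Finset.prod_eq_zero_iff] at h4
  obtain ⟨k, _, h5⟩ := h4
  rw [Polynomial.eval_prod, Finset.prod_eq_zero_iff] at h5
  obtain ⟨i, _, h6⟩ := h5
  simp only [Polynomial.eval_add, Polynomial.eval_mul, Polynomial.eval_C,
    Polynomial.eval_X] at h6
  have hmk : (m k : ℂ) ≠ 0 := by
    have := hm k
    exact_mod_cast (by omega : m k ≠ 0)
  have hse : s = -(i : ℂ) / (m k : ℂ) := by
    rw [eq_div_iff hmk]
    linear_combination h6
  rcases Nat.eq_zero_or_pos i with h0 | h0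
  · exfalso
    have h7 : s = 0 := by rw [hse, h0]; simp
    rw [h7] at hs
    exact r0_topZetaP loc g v θ m R hs
  · have h8 : i ≤ m k := by
      have h9 : (m k : ℝ) * s.re = -(i : ℝ) := by
        have h10 : (m k : ℂ) * s = -(i : ℂ) := by linear_combination h6
        have h11 := congrArg Complex.re h10
        simpa using h11
      have h12 : -(m k : ℝ) ≤ (m k : ℝ) * s.re := by
        have : (0 : ℝ) ≤ (m k : ℝ) := by positivity
        nlinarith
      rw [h9] at h12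
      exact_mod_cast (by linarith : (i : ℝ) ≤ (m k : ℝ))
    rw [hse]
    exact hroots k i h0 h8

lemma eval_of_dvd {b : Polynomial ℂ} {k : Fin (P+1)} {m : Fin (P+1) → ℕ} {i : ℕ}
    (h : (Polynomial.X - Polynomial.C (((-(i : ℚ) / (m k : ℚ)) : ℚ) : ℂ)) ^ (0 + 1) ∣ b) :
    b.eval (-(i : ℂ) / (m k : ℂ)) = 0 := by
  rw [zero_add, pow_one, Polynomial.dvd_iff_isRoot] at h
  have e : (((-(i : ℚ) / (m k : ℚ)) : ℚ) : ℂ) = -(i : ℂ) / (m k : ℂ) := by push_cast; ring
  rw [e] at h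
  exact h

lemma dvd_of_eval {b : Polynomial ℂ} {k : Fin (P+1)} {m : Fin (P+1) → ℕ} {i : ℕ}
    (h : b.eval (-(i : ℂ) / (m k : ℂ)) = 0) :
    (Polynomial.X - Polynomial.C (((-(i : ℚ) / (m k : ℚ)) : ℚ) : ℂ)) ^ (0 + 1) ∣ b := by
  rw [zero_add, pow_one, Polynomial.dvd_iff_isRoot]
  have e : (((-(i : ℚ) / (m k : ℚ)) : ℚ) : ℂ) = -(i : ℂ) / (m k : ℂ) := by push_cast; ring
  rw [e]
  exact h

/-- **Products of powers, generic coefficients, global version.** -/
theorem genProd {F : Type} [Field F] [Algebra F ℂ] (g : Fin r → Fin (P+1))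
    (v : Fin r → Fin N → ℕ) (h : Fin (P+1) → MvPolynomial (Fin N) F) (m : Fin (P+1) → ℕ)
    (hm : ∀ k, 1 ≤ m k) (hg : ∀ k, ∃ j, g j = k)
    (hh : ∀ k, ∀ w ∈ (h k).support, HullG False g v k w) :
    ∃ G : MvPolynomial (Fin r) F, G ≠ 0 ∧ ∀ a : Fin r → ℂ, aeval a G ≠ 0 →
      (∀ k, polyH g v a h k ≠ 0) ∧
      ∀ b : Polynomial ℂ, IsBFunction (∏ k, polyH g v a h k ^ m k) b →
      ∀ θ : Fin r → ℝ, LinearIndependent ℚ θ → ∀ R : SmoothFan N, PrincipalG g v R →
        (∃ (n : ℕ) (Z : Polynomial ℂ), algebraMap (Polynomial ℂ) (RatFunc ℂ) (b * Dx m n) *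
          topZetaP False g v θ m R = algebraMap (Polynomial ℂ) (RatFunc ℂ) Z) ∧
        ((∀ k, TwoV False g v k ∨ OwnAt False (polyH g v a h) k) → ∀ s : ℂ, -1 ≤ s.re →
          (topZetaP False g v θ m R).denom.eval s = 0 → b.eval s = 0) := by
  classical
  have hS : ∀ u ∈ (⊥ : Submonoid (MvPolynomial (Fin N) ℂ)),
      constantCoeff u = 1 ∧ (¬ False → u = 1) := fun u hu => by
    rw [Submonoid.mem_bot] at hu
    exact ⟨by rw [hu, map_one], fun _ => hu⟩
  obtain ⟨G, hG0, hG⟩ := univU (UP g v h m) (UP_ne g v h hg m)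
  refine ⟨G, hG0, fun a ha => ?_⟩
  obtain ⟨hne, h1, _⟩ := hG a ha
  rw [spec_UP] at hne
  have hk : ∀ k, polyH g v a h k ≠ 0 := by
    intro k h0
    apply hne
    refine Finset.prod_eq_zero (Finset.mem_univ k) ?_
    rw [h0]
    exact zero_pow (by have := hm k; omega)
  refine ⟨hk, fun b hb θ hθ R hR => ?_⟩
  have h2 := h1 b (by rw [spec_UP]; exact (Pool.Agent.W425.GN.bfun_iff _ _).1 hb)
  have h3 := transfer m hm (topZetaP False g v θ m R) (rr_topZetaP False g v θ m R)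
    {b' | ∃ φ : MvPolynomial (Fin r) F →+* ℂ, Function.Injective φ ∧
      Pool.Agent.W425.GN.FEq (MvPolynomial.map φ (UP g v h m)) b'}
    (fun b' hb' => by
      obtain ⟨φ, hφ, hF⟩ := hb'
      exact (vg False g v h m hm hg hh φ hφ ⊥ hS b'
        ((Pool.Agent.W591.GC.J_bot _ b').2 ((Pool.Agent.W425.GN.bfun_iff _ _).2 hF))).1
        θ hθ R hR)
    b (fun α l hl => h2 α l fun φ hφ b' hb' => hl b' ⟨φ, hφ, hb'⟩)
  refine ⟨h3, fun hown s hs1 hs => ?_⟩
  obtain ⟨n, Z, hZ⟩ := h3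
  refine pole_ge False g v θ R m b hm (fun k i hi1 hi2 => ?_) n Z hZ s hs1 hs
  rcases hown k with h4 | h4
  · exact eval_of_dvd (h2 _ 0 fun φ hφ b' hF => dvd_of_eval
      ((vg False g v h m hm hg hh φ hφ ⊥ hS b'
        ((Pool.Agent.W591.GC.J_bot _ b').2 ((Pool.Agent.W425.GN.bfun_iff _ _).2 hF))).2
        k h4 i hi1 hi2))
  · exact own_root False (polyH g v a h) m b hk hm
      ((Pool.Agent.W351.NT.fe2 (polyH g v a h) m b).1 hb) k h4 i hi1 hi2

/-- **Products of powers, generic coefficients, local version.** -/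
theorem genProdL {F : Type} [Field F] [Algebra F ℂ] (g : Fin r → Fin (P+1))
    (v : Fin r → Fin N → ℕ) (h : Fin (P+1) → MvPolynomial (Fin N) F) (m : Fin (P+1) → ℕ)
    (hm : ∀ k, 1 ≤ m k) (hg : ∀ k, ∃ j, g j = k)
    (hh : ∀ k, ∀ w ∈ (h k).support, HullG True g v k w) :
    ∃ G : MvPolynomial (Fin r) F, G ≠ 0 ∧ ∀ a : Fin r → ℂ, aeval a G ≠ 0 →
      (∀ k, polyH g v a h k ≠ 0) ∧
      (constantCoeff (∏ k, polyH g v a h k ^ m k) = 0 →
      ∀ b : Polynomial ℂ,
        Pool.Agent.H628R4.TP.IsLocalBFunction (∏ k, polyH g v a h k ^ m k) b →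
      ∀ θ : Fin r → ℝ, LinearIndependent ℚ θ → ∀ R : SmoothFan N, PrincipalG g v R →
        (∃ (n : ℕ) (Z : Polynomial ℂ), algebraMap (Polynomial ℂ) (RatFunc ℂ) (b * Dx m n) *
          topZetaP True g v θ m R = algebraMap (Polynomial ℂ) (RatFunc ℂ) Z) ∧
        ((∀ k, TwoV True g v k ∨ OwnAt True (polyH g v a h) k) → ∀ s : ℂ, -1 ≤ s.re →
          (topZetaP True g v θ m R).denom.eval s = 0 → b.eval s = 0)) := by
  classical
  have hS : ∀ u ∈ Pool.Agent.W591.GC.S1 N, constantCoeff u = 1 ∧ (¬ True → u = 1) :=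
    fun u hu => ⟨Pool.Agent.W591.GC.mem_S1.1 hu, fun h => absurd trivial h⟩
  obtain ⟨G, hG0, hG⟩ := univU (UP g v h m) (UP_ne g v h hg m)
  refine ⟨G, hG0, fun a ha => ?_⟩
  obtain ⟨hne, _, h1⟩ := hG a ha
  rw [spec_UP] at hne
  have hk : ∀ k, polyH g v a h k ≠ 0 := by
    intro k h0
    apply hne
    refine Finset.prod_eq_zero (Finset.mem_univ k) ?_
    rw [h0]
    exact zero_pow (by have := hm k; omega)
  refine ⟨hk, fun hc b hb θ hθ R hR => ?_⟩
  have hbL : Pool.Agent.W425.GN.FEqL (∏ k, polyH g v a h k ^ m k) b := by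
    obtain ⟨_, c, Q, hc', hQ⟩ := Pool.Agent.W368.SL.taskL1 _ _ hne hc
      (Pool.Agent.W425.SL.toSL hb)
    refine (Pool.Agent.W425.GN.feqL_iff _ _).1 ((Pool.Agent.W591.GC.J_iff _ _ b).2
      ⟨c, Pool.Agent.W591.GC.mem_S1.2 hc', Q, fun s => ?_⟩)
    rw [← hQ s]
    ring
  have h2 := h1 b (by rw [spec_UP]; exact hbL)
  have h3 := transfer m hm (topZetaP True g v θ m R) (rr_topZetaP True g v θ m R)
    {b' | ∃ φ : MvPolynomial (Fin r) F →+* ℂ, Function.Injective φ ∧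
      Pool.Agent.W425.GN.FEqL (MvPolynomial.map φ (UP g v h m)) b'}
    (fun b' hb' => by
      obtain ⟨φ, hφ, hF⟩ := hb'
      exact (vg True g v h m hm hg hh φ hφ (Pool.Agent.W591.GC.S1 N) hS b'
        ((Pool.Agent.W425.GN.feqL_iff _ _).2 hF)).1 θ hθ R hR)
    b (fun α l hl => h2 α l fun φ hφ b' hb' => hl b' ⟨φ, hφ, hb'⟩)
  refine ⟨h3, fun hown s hs1 hs => ?_⟩
  obtain ⟨n, Z, hZ⟩ := h3
  refine pole_ge True g v θ R m b hm (fun k i hi1 hi2 => ?_) n Z hZ s hs1 hs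
  rcases hown k with h4 | h4
  · exact eval_of_dvd (h2 _ 0 fun φ hφ b' hF => dvd_of_eval
      ((vg True g v h m hm hg hh φ hφ (Pool.Agent.W591.GC.S1 N) hS b'
        ((Pool.Agent.W425.GN.feqL_iff _ _).2 hF)).2 k h4 i hi1 hi2))
  · exact own_root True (polyH g v a h) m b hk hm
      ((Pool.Agent.W351.NT.fe2 (polyH g v a h) m b).2 hne hc
        (Pool.Agent.W425.SL.toSL hb)) k h4 i hi1 hi2

end Pool.Agent.TH231.PP
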